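import Pool.Agent.MP_fcd29e_an.H81.Spec

/-!
The collar of the boundary.
-/

set_option autoImplicit false

open Pool.Agent.MP_fcd29e_an.H81 MeasureTheory Complex Set Filter Topology Metric
open scoped ContDiff ComplexConjugate ENNReal NNReal

namespace Pool.Agent.MP_fcd29e_an.H65

variable {N : ℕ} {ρ : E N → ℝ}

/-- A function that is smooth at the points of a compact set is Lipschitz on it. -/
theorem lip {X : Type*} [NormedAddCommGroup X] [NormedSpace ℝ X] {f : X → ℝ} {K : Set X}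
    (hK : IsCompact K) (hf : ∀ x ∈ K, ContDiffAt ℝ ∞ f x) :
    ∃ L : ℝ, 0 < L ∧ ∀ x ∈ K, ∀ y ∈ K, |f y - f x| ≤ L * ‖y - x‖ := by
  have : LocallyLipschitzOn K f := fun x hx => by
    obtain ⟨L, t, ht, h⟩ := ((hf x hx).of_le (m := 1) (by simp)).exists_lipschitzOnWith
    exact ⟨L, t, mem_nhdsWithin_of_mem_nhds ht, h⟩
  obtain ⟨L, hL⟩ := this.exists_lipschitzOnWith_of_compact hK
  refine ⟨L + 1, by positivity, fun x hx y hy => ?_⟩
  have h := hL.dist_le_mul y hy x hx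
  rw [Real.dist_eq, dist_eq_norm] at h
  nlinarith [norm_nonneg (y - x)]

theorem cda (h : Dom ρ) {z : E N} (hz : z ≠ 0) : ContDiffAt ℝ ∞ ρ z :=
  h.smooth.contDiffAt (isOpen_compl_singleton.mem_nhds hz)

theorem unit_smul {z : E N} (hz : z ≠ 0) : ‖((‖z‖⁻¹ : ℝ) : ℂ) • z‖ = 1 := by
  rw [norm_smul, Complex.norm_real, Real.norm_eq_abs, abs_of_nonneg (by positivity),
    inv_mul_cancel₀ (norm_ne_zero_iff.2 hz)]

theorem inv_ne {z : E N} (hz : z ≠ 0) : ((‖z‖⁻¹ : ℝ) : ℂ) ≠ 0 :=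
  ofReal_ne_zero.2 (inv_ne_zero (norm_ne_zero_iff.2 hz))

theorem bdd (h : Dom ρ) : ∃ B : ℝ, ∀ z, |ρ z| ≤ B := by
  have hc : ContinuousOn ρ (sphere (0 : E N) 1) := fun z hz =>
    (cda h (by rintro rfl; simp at hz)).continuousAt.continuousWithinAt
  obtain ⟨B, hB⟩ := (isCompact_sphere (0 : E N) 1).exists_bound_of_continuousOn hc
  refine ⟨max B |ρ 0|, fun z => ?_⟩
  by_cases hz : z = 0
  · subst hz; exact le_max_right _ _
  · rw [← h.inv _ (inv_ne hz) z]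
    exact (hB _ (by simpa using unit_smul hz)).trans (le_max_left _ _)

theorem lipS (h : Dom ρ) :
    ∃ L : ℝ, 0 < L ∧ ∀ x y, x ≠ 0 → ‖y - x‖ ≤ ‖x‖ / 2 → |ρ y - ρ x| ≤ L * ‖y - x‖ / ‖x‖ := by
  have hK : IsCompact (closedBall (0 : E N) 2 ∩ (ball 0 (1 / 2))ᶜ) :=
    (isCompact_closedBall _ _).inter_right isOpen_ball.isClosed_compl
  obtain ⟨L, hL, H⟩ := lip hK fun x hx => cda h (by rintro rfl; simp at hx)
  refine ⟨L, hL, fun x y hx hy => ?_⟩
  have hp : 0 < ‖x‖ := norm_pos_iff.2 hx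
  set c : ℂ := ((‖x‖⁻¹ : ℝ) : ℂ) with hc
  have h1 : ‖c • x‖ = 1 := unit_smul hx
  have h2 : ‖c • y - c • x‖ = ‖y - x‖ / ‖x‖ := by
    rw [← smul_sub, norm_smul, hc, Complex.norm_real, Real.norm_eq_abs,
      abs_of_nonneg (by positivity), inv_mul_eq_div]
  have h3 : ‖c • y - c • x‖ ≤ 1 / 2 := by rw [h2, div_le_iff₀ hp]; linarith
  have h4 := norm_sub_norm_le (c • y) (c • x)
  have h5 := norm_sub_norm_le (c • x) (c • y)
  rw [norm_sub_rev] at h5
  have := H (c • x) (by simp only [mem_inter_iff, mem_closedBall_zero_iff, mem_compl_iff,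
      mem_ball_zero_iff, not_lt]; constructor <;> linarith) (c • y)
    (by simp only [mem_inter_iff, mem_closedBall_zero_iff, mem_compl_iff,
      mem_ball_zero_iff, not_lt]; constructor <;> linarith)
  rw [h.inv _ (inv_ne hx), h.inv _ (inv_ne hx), h2] at this
  rwa [mul_div_assoc]

theorem dir (h : Dom ρ) (p : E N) (hp : p ≠ 0) (h0 : ρ p = 0) : ∃ v : E N, ∃ r > 0, 4 * r ≤ ‖p‖ ∧
    ∀ z ∈ closedBall p r, 1 ≤ fderiv ℝ ρ z v := by
  obtain ⟨u, hu⟩ : ∃ u, fderiv ℝ ρ p u ≠ 0 := by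
    by_contra hn
    push Not at hn
    exact h.reg p hp h0 (ContinuousLinearMap.ext hn)
  set v : E N := (2 / fderiv ℝ ρ p u) • u with hv
  have h2 : fderiv ℝ ρ p v = 2 := by
    rw [hv, map_smul, smul_eq_mul, div_mul_cancel₀ _ hu]
  have hc : ContinuousAt (fun z => fderiv ℝ ρ z v) p :=
    (((cda h hp).fderiv_right (m := ∞) le_rfl).clm_apply contDiffAt_const).continuousAt
  have he : ∀ᶠ z in 𝓝 p, 1 < fderiv ℝ ρ z v :=
    hc.eventually (lt_mem_nhds (by simp only [h2]; norm_num))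
  obtain ⟨r, hr, H⟩ := Metric.nhds_basis_closedBall.eventually_iff.1 he
  have hn : 0 < ‖p‖ := norm_pos_iff.2 hp
  refine ⟨v, min r (‖p‖ / 4), by positivity, by linarith [min_le_right r (‖p‖ / 4)],
    fun z hz => (H (closedBall_subset_closedBall (min_le_left _ _) hz)).le⟩

theorem zero_near (h : Dom ρ) {p v : E N} {r : ℝ} (hr : 0 < r) (h4 : 4 * r ≤ ‖p‖)
    (hv : ∀ z ∈ closedBall p r, 1 ≤ fderiv ℝ ρ z v) {z : E N} (hz : z ∈ ball p (r / 2))
    (hs : |ρ z| ≤ r / (2 * (‖v‖ + 1))) :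
    z ∈ Reg ρ ∧ ∃ q, q ≠ 0 ∧ ρ q = 0 ∧ ‖z - q‖ ≤ ‖v‖ * |ρ z| := by
  have hne : ∀ y ∈ closedBall p r, y ≠ 0 := by
    rintro y hy rfl
    rw [mem_closedBall, dist_comm, dist_zero_right] at hy
    linarith
  have hzb : z ∈ closedBall p r :=
    ball_subset_closedBall (ball_subset_ball (by linarith) hz)
  refine ⟨⟨hne z hzb, fun h0 => ?_⟩, ?_⟩
  · have := hv z hzb
    rw [h0] at this
    norm_num at this
  set a := |ρ z| with ha
  have ha0 : 0 ≤ a := abs_nonneg _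
  have hmem : ∀ t ∈ Icc (-a) a, z + t • v ∈ closedBall p r := by
    intro t ht
    have h1 : |t| ≤ a := abs_le.2 ht
    have h2 : ‖t • v‖ ≤ r / 2 := by
      rw [norm_smul, Real.norm_eq_abs]
      rw [le_div_iff₀ (by positivity)] at hs
      nlinarith [norm_nonneg v, abs_nonneg t]
    rw [mem_ball, dist_eq_norm] at hz
    rw [mem_closedBall, dist_eq_norm]
    calc ‖z + t • v - p‖ = ‖(z - p) + t • v‖ := by congr 1; abel
      _ ≤ ‖z - p‖ + ‖t • v‖ := norm_add_le _ _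
      _ ≤ r := by linarith
  have hd : ∀ t ∈ Icc (-a) a,
      HasDerivAt (fun s : ℝ => ρ (z + s • v)) (fderiv ℝ ρ (z + t • v) v) t := by
    intro t ht
    have h1 : HasDerivAt (fun s : ℝ => z + s • v) v t := by
      simpa using ((hasDerivAt_id t).smul_const v).const_add z
    exact (((cda h (hne _ (hmem t ht))).differentiableAt (by simp)).hasFDerivAt).comp_hasDerivAt t h1
  have hc : ContinuousOn (fun s : ℝ => ρ (z + s • v)) (Icc (-a) a) := fun t ht =>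
    (hd t ht).continuousAt.continuousWithinAt
  have hm := (convex_Icc (-a) a).mul_sub_le_image_sub_of_le_deriv (C := 1) hc
    (fun t ht => (hd t (interior_subset ht)).differentiableAt.differentiableWithinAt)
    (fun t ht => by
      rw [(hd t (interior_subset ht)).deriv]; exact hv _ (hmem t (interior_subset ht)))
  have hz0 : (0 : ℝ) ∈ Icc (-a) a := ⟨by linarith, ha0⟩
  have e1 := hm 0 hz0 a ⟨by linarith, le_rfl⟩ ha0
  have e2 := hm (-a) ⟨le_rfl, by linarith⟩ 0 hz0 (by linarith)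
  simp only [zero_smul, add_zero] at e1 e2
  obtain ⟨t, ht, h0⟩ := intermediate_value_Icc (by linarith : -a ≤ a) hc
    (show (0 : ℝ) ∈ Icc (ρ (z + (-a) • v)) (ρ (z + a • v)) from
      ⟨by linarith [le_abs_self (ρ z)], by linarith [neg_abs_le (ρ z)]⟩)
  refine ⟨z + t • v, hne _ (hmem t ht), h0, ?_⟩
  rw [sub_add_cancel_left, norm_neg, norm_smul, Real.norm_eq_abs, mul_comm]
  exact mul_le_mul_of_nonneg_left (abs_le.2 ht) (norm_nonneg _)

theorem collar (h : Dom ρ) {K : Set (E N)} (hK : IsCompact K) (h0 : (0 : E N) ∉ K) :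
    ∃ r₀ > 0, ∃ C : ℝ, 0 ≤ C ∧ ∀ z ∈ K, |ρ z| ≤ r₀ →
      z ∈ Reg ρ ∧ ∃ p, p ≠ 0 ∧ ρ p = 0 ∧ ‖z - p‖ ≤ C * |ρ z| := by
  refine hK.induction_on (p := fun S => ∃ r₀ > 0, ∃ C : ℝ, 0 ≤ C ∧ ∀ z ∈ S, |ρ z| ≤ r₀ →
      z ∈ Reg ρ ∧ ∃ p, p ≠ 0 ∧ ρ p = 0 ∧ ‖z - p‖ ≤ C * |ρ z|) ⟨1, one_pos, 0, le_rfl, by simp⟩
    ?_ ?_ ?_
  · rintro s t hst ⟨r, hr, C, hC, H⟩
    exact ⟨r, hr, C, hC, fun z hz => H z (hst hz)⟩
  · rintro s t ⟨r, hr, C, hC, H⟩ ⟨r', hr', C', hC', H'⟩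
    refine ⟨min r r', lt_min hr hr', C + C', by positivity, ?_⟩
    rintro z (hz | hz) hs
    · obtain ⟨a, p, b, c, d⟩ := H z hz (hs.trans (min_le_left _ _))
      exact ⟨a, p, b, c, by nlinarith [abs_nonneg (ρ z)]⟩
    · obtain ⟨a, p, b, c, d⟩ := H' z hz (hs.trans (min_le_right _ _))
      exact ⟨a, p, b, c, by nlinarith [abs_nonneg (ρ z)]⟩
  · intro x hx
    have hx0 : x ≠ 0 := fun e => h0 (e ▸ hx)
    by_cases hz : ρ x = 0
    · obtain ⟨v, r, hr, h4, hv⟩ := dir h x hx0 hz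
      exact ⟨ball x (r / 2), mem_nhdsWithin_of_mem_nhds (ball_mem_nhds _ (by positivity)),
        r / (2 * (‖v‖ + 1)), by positivity, ‖v‖, norm_nonneg _,
        fun z hz hs => zero_near h hr h4 hv hz hs⟩
    · have hp : 0 < |ρ x| := abs_pos.2 hz
      have he : ∀ᶠ z in 𝓝 x, |ρ x| / 2 < |ρ z| :=
        (cda h hx0).continuousAt.abs.eventually (lt_mem_nhds (by simp only; linarith))
      exact ⟨_, mem_nhdsWithin_of_mem_nhds he, |ρ x| / 2, by positivity, 0, le_rfl,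
        fun z hz hs => absurd hz (not_lt.2 hs)⟩

/-- The collar inside a compact set of regular points. -/
theorem collar' (h : Dom ρ) {K : Set (E N)} (hK : IsCompact K) (h0 : (0 : E N) ∉ K) :
    ∃ K' ⊆ Reg ρ, IsCompact K' ∧ ∃ r₀ > 0, ∃ C : ℝ, 0 ≤ C ∧ ∀ z ∈ K, |ρ z| ≤ r₀ →
      z ∈ K' ∧ ∃ p ∈ K', ρ p = 0 ∧ ‖z - p‖ ≤ C * |ρ z| := by
  obtain ⟨r, hr, C, hC, H⟩ := collar h hK h0
  obtain ⟨η, hη, hs⟩ := hK.exists_cthickening_subset_open (t := {0}ᶜ) isOpen_compl_singleton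
    (subset_compl_singleton_iff.2 h0)
  have hc : ∀ S : Set (E N), IsCompact S → S ⊆ {0}ᶜ → ∀ T : Set ℝ, IsClosed T →
      IsCompact (S ∩ ρ ⁻¹' T) := fun S hS hS0 T hT =>
    hS.of_isClosed_subset ((h.smooth.continuousOn.mono hS0).preimage_isClosed_of_isClosed
      hS.isClosed hT) inter_subset_left
  refine ⟨K ∩ ρ ⁻¹' Icc (-r) r ∪ cthickening η K ∩ ρ ⁻¹' {0}, ?_,
    (hc K hK (subset_compl_singleton_iff.2 h0) _ isClosed_Icc).union
      (hc _ hK.cthickening hs _ isClosed_singleton), min r (η / (C + 1)), by positivity, C, hC, ?_⟩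
  · rintro z (⟨a, b⟩ | ⟨a, b⟩)
    · exact (H z a (abs_le.2 b)).1
    · exact ⟨hs a, h.reg z (hs a) b⟩
  · intro z hz hr0
    have h1 := hr0.trans (min_le_left _ _)
    have h2 := hr0.trans (min_le_right _ _)
    obtain ⟨-, p, -, b, c⟩ := H z hz h1
    refine ⟨Or.inl ⟨hz, abs_le.1 h1⟩, p, Or.inr ⟨?_, b⟩, b, c⟩
    refine mem_cthickening_of_dist_le p z η K hz ?_
    rw [dist_comm, dist_eq_norm]
    rw [le_div_iff₀ (by positivity)] at h2
    nlinarith [abs_nonneg (ρ z)]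

theorem hess_smul (f : E N → ℂ) (z : E N) (t : ℝ) (L : Fin N → ℂ) :
    hess f z (fun j => (t : ℂ) * L j) = ((t ^ 2 : ℝ) : ℂ) * hess f z L := by
  simp only [hess, Finset.mul_sum, map_mul, conj_ofReal]
  refine Finset.sum_congr rfl fun j _ => Finset.sum_congr rfl fun k _ => ?_
  push_cast; ring

theorem hess_cda {X : Type*} [NormedAddCommGroup X] [NormedSpace ℝ X] (h : Dom ρ) {a : X → E N}
    {L : X → Fin N → ℂ} {x : X} (h0 : a x ≠ 0) (ha : ContDiffAt ℝ ∞ a x)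
    (hL : ∀ j, ContDiffAt ℝ ∞ (fun y => L y j) x) :
    ContDiffAt ℝ ∞ (fun y => (hess (cx ρ) (a y) (L y)).re) x := by
  refine reCLM.contDiff.contDiffAt.comp x (g := reCLM) ?_
  refine ContDiffAt.sum fun j _ => ContDiffAt.sum fun k _ => ?_
  exact (((contDiffAt_dz j (contDiffAt_dzb k (contDiffAt_cx (cda h h0)))).comp x ha).mul
    (hL j)).mul (conjCLE.contDiff.contDiffAt.comp x (hL k))

theorem coord_cda (j : Fin N) (x : E N × E N) : ContDiffAt ℝ ∞ (fun y : E N × E N => y.2 j) x :=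
  (contDiff_coord j).contDiffAt.comp x (f := fun y : E N × E N => y.2) contDiffAt_snd

/-- The Levi form of the projection of a vector to the complex tangent space. -/
noncomputable def FF (ρ : E N → ℝ) (y : E N × E N) : ℝ :=
  (hess (cx ρ) y.1 fun j => y.2 j - av ρ y.1 y.2 * nn ρ j y.1).re

theorem FF_cda (hp : StmtPF) (h : Dom ρ) {x : E N × E N} (hx : x.1 ∈ Reg ρ) :
    ContDiffAt ℝ ∞ (FF ρ) x := by
  obtain ⟨-, -, -, hq⟩ := hp N
  obtain ⟨-, -, -, q2, -⟩ := hq ρ h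
  refine hess_cda h (a := fun y : E N × E N => y.1)
    (L := fun y j => y.2 j - av ρ y.1 y.2 * nn ρ j y.1) hx.1 contDiffAt_fst fun j => ?_
  have h1 : ContDiffAt ℝ ∞ (fun y : E N × E N => av ρ y.1 y.2) x := by
    unfold av
    refine ContDiffAt.sum fun l _ => ContDiffAt.mul ?_ (coord_cda l x)
    exact (contDiffAt_dz l (contDiffAt_cx (cda h hx.1))).comp x (f := fun y : E N × E N => y.1)
      contDiffAt_fst
  have h2 : ContDiffAt ℝ ∞ (fun y : E N × E N => nn ρ j y.1) x :=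
    ((q2 _ hx).2.2.2.1 j).comp x (f := fun y : E N × E N => y.1) contDiffAt_fst
  exact (coord_cda j x).sub (h1.mul h2)

theorem FF_nonneg (hp : StmtPF) (h : Dom ρ) {p : E N} (hpR : p ∈ Reg ρ) (c : ρ p = 0) (w : E N) :
    0 ≤ FF ρ (p, w) := by
  obtain ⟨-, -, -, hq⟩ := hp N
  obtain ⟨-, -, q1, q2, -⟩ := hq ρ h
  refine h.levi p hpR.1 c (fun j => w j - av ρ p w * nn ρ j p) ?_
  have f1 : av ρ p (nv ρ p) = an ρ p := (q1 p hpR.1).2.2.2.2.1
  have f2 : (an ρ p : ℂ) ≠ 0 := ofReal_ne_zero.2 (q2 p hpR).1.ne'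
  have f3 : ∑ j, dz j (cx ρ) p * nn ρ j p = 1 := by
    simp only [nn, ← mul_div_assoc, ← Finset.sum_div]
    rw [div_eq_one_iff_eq f2, ← f1]
    rfl
  have f4 : ∑ j, dz j (cx ρ) p * (w j - av ρ p w * nn ρ j p) =
      av ρ p w - av ρ p w * ∑ j, dz j (cx ρ) p * nn ρ j p := by
    rw [Finset.mul_sum]
    nth_rw 2 [av]
    rw [← Finset.sum_sub_distrib]
    exact Finset.sum_congr rfl fun j _ => by ring
  exact f4.trans (by rw [f3, mul_one, sub_self])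

theorem hess_bdd (h : Dom ρ) : ∃ M : ℝ, 0 ≤ M ∧ ∀ z w : E N, ‖z‖ = 1 → ‖w‖ ≤ 1 →
    -M ≤ (hess (cx ρ) z fun j => w j).re := by
  have hc : ContinuousOn (fun y : E N × E N => (hess (cx ρ) y.1 fun j => y.2 j).re)
      (sphere 0 1 ×ˢ closedBall 0 1) := fun x hx =>
    (hess_cda h (a := fun y : E N × E N => y.1) (L := fun y j => y.2 j)
      (fun e : x.1 = 0 => by have := hx.1; rw [e] at this; simp at this) contDiffAt_fst
        fun j => coord_cda j x).continuousAt.continuousWithinAt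
  obtain ⟨M, hM⟩ := ((isCompact_sphere (0 : E N) 1).prod
    (isCompact_closedBall (0 : E N) 1)).exists_bound_of_continuousOn hc
  refine ⟨|M|, abs_nonneg _, fun z w hz hw => ?_⟩
  have e := hM (z, w) ⟨by simpa using hz, by simpa using hw⟩
  rw [Real.norm_eq_abs, abs_le] at e
  exact (neg_le_neg (le_abs_self M)).trans e.1

theorem levi_unit (hp : StmtPF) (h : Dom ρ) : ∃ C : ℝ, ∀ z : E N, ‖z‖ = 1 → 0 < ρ z →
    ∀ w : E N, ‖w‖ ≤ 1 → av ρ z w = 0 → -(C * ρ z) ≤ (hess (cx ρ) z fun j => w j).re := by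
  obtain ⟨K', hK', hc, r, hr, C, hC, H⟩ := collar' h (isCompact_sphere (0 : E N) 1) (by simp)
  obtain ⟨L, hL, HL⟩ := lip (K := K' ×ˢ closedBall (0 : E N) 1) (f := FF ρ)
    (hc.prod (isCompact_closedBall _ _)) fun x hx => FF_cda hp h (hK' hx.1)
  obtain ⟨M, hM0, hM⟩ := hess_bdd h
  refine ⟨L * C + M / r, fun z hz hz0 w hw ha => ?_⟩
  have hwB : w ∈ closedBall (0 : E N) 1 := by simpa using hw
  have hMr : 0 ≤ M / r := by positivity
  have e0 : FF ρ (z, w) = (hess (cx ρ) z fun j => w j).re := by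
    simp only [FF, ha, zero_mul, sub_zero]
  have e4 := hM z w hz hw
  rw [← e0] at e4 ⊢
  by_cases hs : ρ z ≤ r
  · obtain ⟨a, p, b, c, d⟩ := H z (by simpa using hz) (by rwa [abs_of_pos hz0])
    rw [abs_of_pos hz0] at d
    have e := le_of_abs_le (HL (z, w) ⟨a, hwB⟩ (p, w) ⟨b, hwB⟩)
    have e1 := FF_nonneg hp h (hK' b) c w
    have e2 : ‖(p, w) - (z, w)‖ = ‖z - p‖ := by
      simp [Prod.norm_def, norm_sub_rev]
    rw [e2] at e
    have e5 := mul_le_mul_of_nonneg_left d hL.le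
    have e6 := mul_nonneg hMr hz0.le
    linarith
  · have e1 : M ≤ M / r * ρ z := by
      rw [div_mul_eq_mul_div, le_div_iff₀ hr]
      exact mul_le_mul_of_nonneg_left (not_le.1 hs).le hM0
    have e6 := mul_nonneg (mul_nonneg hL.le hC) hz0.le
    linarith

theorem levi (hp : StmtPF) (h : Dom ρ) : ∃ C : ℝ, ∀ z ∈ Op ρ, ∀ w, av ρ z w = 0 →
    -(C * ρ z * ‖w‖ ^ 2 / ‖z‖ ^ 2) ≤ (hess (cx ρ) z fun j => w j).re := by
  obtain ⟨C, H⟩ := levi_unit hp h
  obtain ⟨p1, -, -, hq⟩ := hp N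
  obtain ⟨-, -, q1, -⟩ := hq ρ h
  refine ⟨C, fun z hz w ha => ?_⟩
  by_cases hw : w = 0
  · subst hw; simp [hess]
  have hz0 : 0 < ‖z‖ := norm_pos_iff.2 hz.1
  have hw0 : 0 < ‖w‖ := norm_pos_iff.2 hw
  set c : ℂ := ((‖z‖⁻¹ : ℝ) : ℂ) with hc
  set d : ℂ := ((‖w‖⁻¹ : ℝ) : ℂ) with hd
  have hc0 : c ≠ 0 := inv_ne hz.1
  have e := H (c • z) (unit_smul hz.1) (by rw [h.inv c hc0]; exact hz.2) (d • w)
    (unit_smul hw).le (by
      have : av ρ (c • z) (d • w) = c⁻¹ * d * av ρ z w := by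
        simp only [av, ((q1 z hz.1).2.2.2.1 c hc0).1, Finset.mul_sum, PiLp.smul_apply, smul_eq_mul]
        exact Finset.sum_congr rfl fun j _ => by ring
      rw [this, ha, mul_zero])
  have h0 : Hom (E0 N) 0 0 (cx ρ) := fun a ha z _ => by simp [cx, h.inv a ha]
  have h1 : ∀ L, hess (cx ρ) (c • z) L = ((‖z‖ ^ 2 : ℝ) : ℂ) * hess (cx ρ) z L := by
    intro L
    simp only [hess, Finset.mul_sum]
    refine Finset.sum_congr rfl fun j _ => Finset.sum_congr rfl fun k _ => ?_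
    have h2 := ((p1 _ _ _ _ isOpen_E0 cone_E0
      ((p1 _ _ _ _ isOpen_E0 cone_E0 h0).1 k).2).1 j).1 c hc0 z hz.1
    rw [h2, hc, conj_ofReal]
    simp only [zero_sub, Int.reduceNeg, zpow_neg, zpow_one, ofReal_inv, inv_inv]
    push_cast; ring
  have h3 : (fun j => (d • w) j) = fun j => ((‖w‖⁻¹ : ℝ) : ℂ) * w j := rfl
  rw [h1, h3, hess_smul, h.inv c hc0, re_ofReal_mul, re_ofReal_mul] at e
  set x := (hess (cx ρ) z fun j => w j).re
  have e1 : x = ‖w‖ ^ 2 / ‖z‖ ^ 2 * (‖z‖ ^ 2 * (‖w‖⁻¹ ^ 2 * x)) := by field_simp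
  have e2 := mul_le_mul_of_nonneg_left e (by positivity : 0 ≤ ‖w‖ ^ 2 / ‖z‖ ^ 2)
  rw [← e1] at e2
  refine le_trans (le_of_eq ?_) e2
  ring

theorem sh_compact : IsCompact (Sh N) := by
  have hc : Continuous fun z : E N => ‖z‖ ^ 2 := continuous_norm.pow 2
  refine (isCompact_closedBall (0 : E N) 2).of_isClosed_subset
    ((isClosed_Icc (a := (1 : ℝ)) (b := 4)).preimage hc) fun z hz => ?_
  rw [mem_closedBall_zero_iff]
  nlinarith [hz.2, norm_nonneg z]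

theorem phi (hp : StmtPF) (h : Dom ρ) (φ : E N → ℝ) (hφ : PHI ρ φ) :
    ∃ r₀ > 0, r₀ ≤ 1 ∧ ∃ c₀ > 0, ∃ C : ℝ, ∀ z ∈ Sh N, 0 ≤ ρ z → ρ z ≤ r₀ →
      z ∈ Reg ρ ∧ c₀ ≤ trH ρ φ z ∧ -(C * ρ z) ≤ trH ρ ρ z := by
  obtain ⟨-, -, -, hq⟩ := hp N
  obtain ⟨q0, -, -, -, q3, -, q5⟩ := hq ρ h
  obtain ⟨K', hK', hc, r, hr, C, hC, H⟩ := collar' h (sh_compact (N := N))
    (fun e => by have := e.1; norm_num at this)
  have s1 : ∀ x ∈ K', ContDiffAt ℝ ∞ (trH ρ φ) x := fun x hx =>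
    (q3 x (hK' hx) φ (hφ.smooth.contDiffAt (q0.mem_nhds (hK' hx)))).2.2.1
  obtain ⟨L, hL, HL⟩ := lip hc s1
  obtain ⟨L', hL', HL'⟩ := lip hc fun x hx => (q3 x (hK' hx) ρ (cda h (hK' hx).1)).2.2.1
  have hc0 : IsCompact (K' ∩ ρ ⁻¹' {0}) :=
    hc.of_isClosed_subset ((h.smooth.continuousOn.mono fun x hx => (hK' hx).1
      ).preimage_isClosed_of_isClosed hc.isClosed isClosed_singleton) inter_subset_left
  obtain ⟨c, hc1, hc2⟩ := hc0.exists_forall_le' (f := trH ρ φ) (a := 0)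
    (fun x hx => (s1 x hx.1).continuousAt.continuousWithinAt)
    fun x hx => hφ.pos x (hK' hx.1).1 hx.2
  refine ⟨min (min r 1) (c / (2 * (L * C + 1))), by positivity,
    (min_le_left _ _).trans (min_le_right _ _), c / 2, by positivity, L' * C,
    fun z hz h0 h1 => ?_⟩
  obtain ⟨a, p, b, d, e⟩ := H z hz (by
    rw [abs_of_nonneg h0]; exact h1.trans ((min_le_left _ _).trans (min_le_left _ _)))
  rw [abs_of_nonneg h0] at e
  have h2 := h1.trans (min_le_right _ _)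
  rw [le_div_iff₀ (by positivity)] at h2
  have f1 := neg_le_of_abs_le (HL p b z a)
  have f2 := neg_le_of_abs_le (HL' p b z a)
  have f3 := hc2 p ⟨b, d⟩
  have f4 := (q5 p (hK' b).1 d).2.1
  refine ⟨hK' a, ?_, ?_⟩
  · nlinarith [mul_le_mul_of_nonneg_left e hL.le]
  · nlinarith [mul_le_mul_of_nonneg_left e hL'.le]

theorem open_op (h : Dom ρ) : IsOpen (Op ρ) :=
  h.smooth.continuousOn.isOpen_inter_preimage isOpen_compl_singleton (isOpen_Ioi (a := 0))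

theorem wl (h : Dom ρ) (k : ℕ) (g : E N → ℂ) (hg : WL ρ k g) : L2 (E0 N) g := by
  intro K hK h0
  obtain ⟨B, hB⟩ := bdd h
  have hE : E0 N ∩ K = K := inter_eq_right.2 (subset_compl_singleton_iff.2 h0)
  have h1 := hg.2.2 K hK h0
  rw [← Measure.restrict_restrict (open_op h).measurableSet,
    ← memLp_indicator_iff_restrict (open_op h).measurableSet] at h1
  rw [hE]
  refine h1.of_le_mul (c := B ^ k) hg.1.restrict ?_
  filter_upwards [ae_restrict_of_ae hg.2.1, ae_restrict_mem hK.measurableSet] with z hz hzK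
  have hB0 : 0 ≤ B := (abs_nonneg _).trans (hB 0)
  by_cases hr : ρ z ≤ 0
  · rw [hz hr, norm_zero]; positivity
  · have hp : 0 < ρ z := not_le.1 hr
    rw [indicator_of_mem (show z ∈ Op ρ from ⟨fun e => h0 (e ▸ hzK), hp⟩), norm_div, norm_pow,
      Complex.norm_real, Real.norm_eq_abs, ← mul_div_assoc, le_div_iff₀ (by positivity), mul_comm]
    exact mul_le_mul_of_nonneg_right (pow_le_pow_left₀ (abs_nonneg _) (hB z) k) (norm_nonneg _)

theorem c1 (hp : StmtPF) : StmtC1 := by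
  intro N ρ h
  refine ⟨h.smooth.continuousOn.isOpen_inter_preimage isOpen_compl_singleton (isOpen_Iio (a := 0)),
    open_op h, ⟨fun e => e.1 rfl, fun c hc z hz => ⟨smul_ne_zero hc hz.1, ?_⟩⟩,
    ⟨fun e => e.1 rfl, fun c hc z hz => ⟨smul_ne_zero hc hz.1, ?_⟩⟩,
    measurable_of_continuousOn_compl_singleton 0 h.smooth.continuousOn, bdd h, lipS h,
    fun K hK h0 => ⟨?_, ?_⟩, dir h, levi hp h, phi hp h, wl h⟩
  · rw [h.inv c hc]; exact hz.2
  · rw [h.inv c hc]; exact hz.2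
  · obtain ⟨L, -, H⟩ := lip hK fun x hx => cda h fun e => h0 (e ▸ hx)
    exact ⟨L, H⟩
  · obtain ⟨r, hr, C, -, H⟩ := collar h hK h0
    exact ⟨r, hr, C, H⟩

end Pool.Agent.MP_fcd29e_an.H65
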