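import Pool.Agent.MP_fcd29e_an.H11.CS

/-!
Comparison at the two ends of the neck of a cell.
-/

set_option autoImplicit false

open Complex Set Filter Topology Metric Pool.Agent.MP_fcd29e_an.H11
open scoped ContDiff ComplexConjugate

namespace Pool.Agent.MP_fcd29e_an.H65

lemma nsq_add {ι : Type} [Fintype ι] (ξ q : ι → ℂ) :
    nsq (ξ + q) = nsq ξ + 2 * (ip q ξ).re + nsq q := by
  simp only [nsq, ip, re_sum, Finset.mul_sum, ← Finset.sum_add_distrib]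
  refine Finset.sum_congr rfl fun k _ => ?_
  simp only [Pi.add_apply, Complex.sq_norm, normSq_apply, add_re, add_im, mul_re, conj_re, conj_im]
  ring

lemma ip_lin {ι : Type} [Fintype ι] (κ : ℂ) (w q ξ : ι → ℂ) :
    ip (κ • w + q) ξ = κ * conj (ip ξ w) + ip q ξ := by
  simp only [ip, map_sum, Finset.mul_sum, ← Finset.sum_add_distrib]
  refine Finset.sum_congr rfl fun k _ => ?_
  simp only [Pi.add_apply, Pi.smul_apply, smul_eq_mul, map_mul, conj_conj]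
  ring

lemma n22 {ι : Type} [Fintype ι] (v : V ι) : ‖v.2.2‖ ≤ ‖v‖ :=
  (norm_snd_le v.2).trans (norm_snd_le v)

/-- The constant in the expansion of the norm. -/
def c1 (r : ℕ) (P C : ℝ) : ℝ := 2 * (r + 1) * (2 * P + 2 * C) + r * (18 * P ^ 2 + 8 * C ^ 2)

lemma c1_nonneg (r : ℕ) {P C : ℝ} (hP : 0 ≤ P) (hC : 0 ≤ C) : 0 ≤ c1 r P C := by
  unfold c1
  positivity

lemma slope (hGR : SGR) {r : ℕ} {c S : ℝ} {w ξ : Fin r → ℂ} (hw : Ax c S w) {y : V (Fin r)}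
    (hy : y = ((1 : ℂ), fun k => conj (ξ k), ξ)) :
    (Pp c S w y).2.2 - (Pm c S w y).2.2 = ((S : ℂ) - c * ip ξ w) • w := by
  obtain ⟨e1, e2, e3, e4⟩ := (hGR.vec _ c S w hw).2.2.2.2.2.2.2.2 y
  have e5 : ∑ k, y.2.1 k * w k = conj (ip ξ w) := by
    simp only [hy, ip, map_sum, map_mul, conj_conj]
  have e6 : y.2.2 = ξ := by rw [hy]
  have e7 : y.1 = 1 := by rw [hy]
  rw [e1, e2, e3, e4, e5, e6, e7]
  funext k
  simp only [ep, H11.em, Prod.smul_snd, Pi.sub_apply, Pi.smul_apply, smul_eq_mul]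
  ring

lemma vec (hGR : SGR) {r : ℕ} {c S P C ε ρ : ℝ} {w : Fin r → ℂ} (hw : Ax c S w)
    (hp : ‖Pp c S w‖ ≤ P) (hm : ‖Pm c S w‖ ≤ P) {y : V (Fin r)} (hy : y ∈ cone (Fin r))
    (h1 : y.1 = 1) {M : EV (Fin r)} (hM : ‖M - 1‖ ≤ C * ε) (hC : 0 ≤ C) (hε : 0 ≤ ε) (hε1 : ε ≤ 1)
    (hρ : 1 / 2 ≤ ρ) (hd : (ρ - 1) ^ 2 ≤ ε) (hs : 3 * P * |ρ - 1| ≤ 1) :
    nsq y.2.2 = 1 ∧ ‖(M (rot c S w ρ y)).2.2 - y.2.2‖ ≤ 3 * P * |ρ - 1| + 2 * C * ε ∧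
    |nsq (M (rot c S w ρ y)).2.2 - 1 -
      2 * (ρ - 1) * (S * (ip y.2.2 w).re - c * ‖ip y.2.2 w‖ ^ 2)| ≤ c1 r P C * ε := by
  have hP : 0 ≤ P := (norm_nonneg _).trans hp
  have hρ0 : 0 < ρ := by linarith
  have hρc : (ρ : ℂ) ≠ 0 := by exact_mod_cast hρ0.ne'
  have ny : ‖y‖ = 1 := by rw [(hGR.cn _ y hy).2.1, h1, one_re]
  obtain ⟨a, ξ, ha, hξ, e⟩ := (hGR.mem _ y).1 hy
  have a1 : a = 1 := by
    have : (a : ℂ) = 1 := by rw [← h1, e]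
    exact_mod_cast this
  subst a1
  have e' : y = ((1 : ℂ), fun k => conj (ξ k), ξ) := by rw [e, ofReal_one]
  have e6 : y.2.2 = ξ := by rw [e']
  rw [one_pow] at hξ
  have sl := slope hGR hw e'
  have hz : rot c S w ρ y = y + ((ρ : ℂ) - 1) • Pp c S w y + ((ρ : ℂ)⁻¹ - 1) • Pm c S w y := by
    rw [((hGR.rt _ c S w hw).2 ρ hρc).2.2.2]
    simp
  have np : ‖Pp c S w y‖ ≤ P := by simpa [ny] using (Pp c S w).le_of_opNorm_le hp y
  have nm : ‖Pm c S w y‖ ≤ P := by simpa [ny] using (Pm c S w).le_of_opNorm_le hm y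
  have d1 : ‖(ρ : ℂ) - 1‖ = |ρ - 1| := by
    rw [← ofReal_one, ← ofReal_sub, norm_real, Real.norm_eq_abs]
  have d2 : ‖(ρ : ℂ)⁻¹ - 1‖ ≤ 2 * |ρ - 1| := by
    have : (ρ : ℂ)⁻¹ - 1 = -((ρ : ℂ) - 1) * (ρ : ℂ)⁻¹ := by field_simp; ring
    rw [this, norm_mul, norm_neg, d1, norm_inv, norm_real, Real.norm_eq_abs, abs_of_pos hρ0,
      mul_comm]
    refine mul_le_mul_of_nonneg_right ?_ (abs_nonneg _)
    rw [inv_le_comm₀ hρ0 two_pos]
    linarith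
  have z1 : ‖rot c S w ρ y - y‖ ≤ 3 * P * |ρ - 1| := by
    rw [hz, add_assoc, add_sub_cancel_left]
    refine (norm_add_le _ _).trans ?_
    rw [norm_smul, norm_smul, d1]
    nlinarith [mul_le_mul_of_nonneg_left np (abs_nonneg (ρ - 1)),
      mul_le_mul d2 nm (norm_nonneg _) (by positivity)]
  have z2 : ‖rot c S w ρ y‖ ≤ 2 := by
    have := norm_le_norm_add_norm_sub' (rot c S w ρ y) y
    linarith
  obtain ⟨δ, hδ⟩ : ∃ δ, δ = (M - 1) (rot c S w ρ y) := ⟨_, rfl⟩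
  have z3 : ‖δ‖ ≤ 2 * C * ε := by
    have := (M - 1).le_of_opNorm_le hM (rot c S w ρ y)
    rw [hδ]
    nlinarith [mul_le_mul_of_nonneg_left z2 (mul_nonneg hC hε)]
  have z4 : M (rot c S w ρ y) = rot c S w ρ y + δ := by simp [hδ]
  obtain ⟨q, hq⟩ : ∃ q, q = (M (rot c S w ρ y)).2.2 - ξ := ⟨_, rfl⟩
  have q1 : ‖q‖ ≤ 3 * P * |ρ - 1| + 2 * C * ε := by
    have : q = (rot c S w ρ y - y).2.2 + δ.2.2 := by
      rw [hq, z4, ← e6]
      simp only [Prod.snd_add, Prod.snd_sub]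
      abel
    rw [this]
    exact (norm_add_le _ _).trans (add_le_add ((n22 _).trans z1) ((n22 _).trans z3))
  obtain ⟨q', hq'⟩ : ∃ q', q' = (((ρ : ℂ) - 1) ^ 2 * (ρ : ℂ)⁻¹) • (Pm c S w y).2.2 + δ.2.2 :=
    ⟨_, rfl⟩
  have q2 : q = (((ρ : ℂ) - 1) * ((S : ℂ) - c * ip ξ w)) • w + q' := by
    rw [mul_smul, ← sl, hq, hq', z4, hz, ← e6]
    funext k
    simp only [Prod.snd_add, Prod.smul_snd, Pi.add_apply, Pi.sub_apply, Pi.smul_apply, smul_eq_mul]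
    field_simp
    ring
  have q3 : ‖q'‖ ≤ (2 * P + 2 * C) * ε := by
    rw [hq']
    refine (norm_add_le _ _).trans ?_
    rw [norm_smul, norm_mul, norm_pow, d1, sq_abs, norm_inv, norm_real, Real.norm_eq_abs,
      abs_of_pos hρ0]
    have i2 : ρ⁻¹ ≤ 2 := by
      rw [inv_le_comm₀ hρ0 two_pos]
      linarith
    have k1 := mul_le_mul hd i2 (inv_pos.2 hρ0).le hε
    have k2 := mul_le_mul k1 ((n22 _).trans nm) (norm_nonneg _) (by positivity)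
    linarith [(n22 δ).trans z3]
  have q4 : |(ip q' ξ).re| ≤ (r + 1) * ((2 * P + 2 * C) * ε) := by
    refine (abs_re_le_norm _).trans (le_trans ?_ (mul_le_mul_of_nonneg_left q3 (by positivity)))
    obtain ⟨-, -, k1, k2, -⟩ := hGR.nrm _ q' ξ
    rw [hξ, mul_one] at k2
    rw [Fintype.card_fin] at k1
    refine abs_le_of_sq_le_sq' ?_ (by positivity) |>.2
    rw [mul_pow]
    refine (k2.trans k1).trans (mul_le_mul_of_nonneg_right ?_ (sq_nonneg _))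
    nlinarith [(Nat.cast_nonneg r : (0 : ℝ) ≤ r)]
  have q5 : nsq q ≤ r * (18 * P ^ 2 + 8 * C ^ 2) * ε := by
    obtain ⟨-, -, k1, -⟩ := hGR.nrm _ q ξ
    rw [Fintype.card_fin] at k1
    refine k1.trans ?_
    rw [mul_assoc]
    refine mul_le_mul_of_nonneg_left ?_ (Nat.cast_nonneg r)
    have k2 := pow_le_pow_left₀ (norm_nonneg _) q1 2
    have k3 : |ρ - 1| ^ 2 ≤ ε := by rwa [sq_abs]
    have k4 : ε ^ 2 ≤ ε := by nlinarith
    nlinarith [sq_nonneg (3 * P * |ρ - 1| - 2 * C * ε), mul_le_mul_of_nonneg_left k3 (sq_nonneg P),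
      mul_le_mul_of_nonneg_left k4 (sq_nonneg C)]
  have q6 : (ip q ξ).re = (ρ - 1) * (S * (ip ξ w).re - c * ‖ip ξ w‖ ^ 2) + (ip q' ξ).re := by
    rw [q2, ip_lin]
    simp only [Complex.sq_norm, normSq_apply, add_re, mul_re, sub_re, sub_im, mul_im, ofReal_re,
      ofReal_im, one_re, one_im, conj_re, conj_im]
    ring
  have q7 : (M (rot c S w ρ y)).2.2 = ξ + q := by rw [hq]; abel
  rw [e6]
  refine ⟨hξ, hq ▸ q1, ?_⟩
  rw [q7, nsq_add, hξ, q6, c1, abs_le]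
  have := (hGR.nrm _ q ξ).1
  rw [abs_le] at q4
  have : 0 ≤ r * (18 * P ^ 2 + 8 * C ^ 2) * ε := by positivity
  constructor <;> linarith [q4.1, q4.2]

lemma tp_norm {m : ℕ} (i j : Fin m) : ‖tp j - tp i‖ = |((j : ℕ) : ℝ) - (i : ℕ)| := by
  rw [tp, tp, ← mul_sub, norm_mul, norm_I, one_mul, ← ofReal_natCast, ← ofReal_natCast,
    ← ofReal_sub, norm_real, Real.norm_eq_abs]

lemma tp_dist {m : ℕ} {i j : Fin m} (h : i ≠ j) : 1 ≤ ‖tp j - tp i‖ ∧ ‖tp j - tp i‖ ≤ m := by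
  have hi : ((i : ℕ) : ℝ) ≤ m := by exact_mod_cast i.2.le
  have hj : ((j : ℕ) : ℝ) ≤ m := by exact_mod_cast j.2.le
  have h0 : (0 : ℝ) ≤ (i : ℕ) := Nat.cast_nonneg _
  have h1 : (0 : ℝ) ≤ (j : ℕ) := Nat.cast_nonneg _
  rw [tp_norm]
  refine ⟨?_, abs_le.2 ⟨by linarith, by linarith⟩⟩
  rcases lt_or_gt_of_ne (Fin.val_ne_of_ne h) with H | H
  · have : ((i : ℕ) : ℝ) + 1 ≤ (j : ℕ) := by exact_mod_cast H
    exact le_abs.2 (Or.inl (by linarith))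
  · have : ((j : ℕ) : ℝ) + 1 ≤ (i : ℕ) := by exact_mod_cast H
    exact le_abs.2 (Or.inr (by linarith))

lemma rest {m : ℕ} (ψ : Fin m → ℝ) {A : ℝ} (hψ : ∀ i, |ψ i| ≤ A) (j : Fin m) {z : ℂ}
    (hz : ‖z‖ ≤ 1 / 4) :
    |∑ i, ψ i * Real.log ‖tp j + z - tp i‖ - Real.log (1 + ‖tp j + z‖ ^ 2) -
      ψ j * Real.log ‖z‖| ≤ m * (A * (m + 1)) + (m + 1) ^ 2 := by
  have hA : 0 ≤ A := (abs_nonneg _).trans (hψ j)
  have h1 : |∑ i ∈ Finset.univ.erase j, ψ i * Real.log ‖tp j + z - tp i‖| ≤ m * (A * (m + 1)) := by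
    refine (Finset.abs_sum_le_sum_abs _ _).trans
      ((Finset.sum_le_card_nsmul _ _ (A * (m + 1)) fun i hi => ?_).trans ?_)
    · obtain ⟨k1, k2⟩ := tp_dist (Finset.ne_of_mem_erase hi)
      have e : tp j + z - tp i = (tp j - tp i) + z := by ring
      have k3 := norm_add_le (tp j - tp i) z
      have k4 := norm_sub_le ((tp j - tp i) + z) z
      rw [add_sub_cancel_right] at k4
      rw [abs_mul, e]
      refine mul_le_mul (hψ i) (abs_le.2 ⟨?_, ?_⟩) (abs_nonneg _) hA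
      · have k5 : 0 < ‖tp j - tp i + z‖ := by linarith
        have k6 := Real.one_sub_inv_le_log_of_pos k5
        have k7 : ‖tp j - tp i + z‖⁻¹ ≤ 2 := by
          rw [inv_le_comm₀ k5 two_pos]
          linarith
        linarith [(Nat.cast_nonneg m : (0 : ℝ) ≤ m)]
      · linarith [Real.log_le_self (norm_nonneg (tp j - tp i + z))]
    · rw [nsmul_eq_mul]
      refine mul_le_mul_of_nonneg_right ?_ (by positivity)
      have := Finset.card_le_univ (Finset.univ.erase j)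
      rw [Fintype.card_fin] at this
      exact_mod_cast this
  have h2 : ‖tp j + z‖ ≤ m + 1 := by
    have hj : ((j : ℕ) : ℝ) ≤ m := by exact_mod_cast j.2.le
    have : ‖tp j‖ = (j : ℕ) := by simp [tp]
    linarith [norm_add_le (tp j) z]
  have h3 := Real.log_le_sub_one_of_pos (show 0 < 1 + ‖tp j + z‖ ^ 2 by positivity)
  have h4 := Real.log_nonneg (show 1 ≤ 1 + ‖tp j + z‖ ^ 2 by linarith [sq_nonneg ‖tp j + z‖])
  have h5 := pow_le_pow_left₀ (norm_nonneg _) h2 2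
  rw [← Finset.add_sum_erase _ _ (Finset.mem_univ j), add_sub_cancel_left, abs_le]
  rw [abs_le] at h1
  constructor <;> linarith [h1.1, h1.2, sq_nonneg ((m : ℝ) + 1)]

lemma lam_bd {l η Cs u f : ℝ} {a : ℂ} (hl : 0 ≤ l) (hC : 0 ≤ Cs) (hu : 0 ≤ u)
    (h1 : f ≤ 1 + Cs * u) (h2 : ‖a‖ ≤ η → f ≤ 1 - u / 16) : f ≤ 1 - lam l η Cs a * u := by
  have p1 := Real.exp_pos (l * a.re)
  have p2 := Real.exp_pos (-(l * a.re))
  have p3 := Real.exp_pos (l * a.im)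
  have p4 := Real.exp_pos (-(l * a.im))
  have p5 := Real.exp_pos (-(l * η / 2))
  by_cases h : ‖a‖ ≤ η
  · have : lam l η Cs a ≤ 1 / 16 := sub_le_self _ (by positivity)
    linarith [h2 h, mul_le_mul_of_nonneg_right this hu]
  · have k : Real.exp (l * η / 2) ≤ Real.exp (l * a.re) + Real.exp (-(l * a.re)) +
        Real.exp (l * a.im) + Real.exp (-(l * a.im)) := by
      have k0 := norm_le_abs_re_add_abs_im a
      have k1 : ∀ v : ℝ, η / 2 ≤ v → Real.exp (l * η / 2) ≤ Real.exp (l * v) := fun v hv =>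
        Real.exp_le_exp.2 (by linarith [mul_le_mul_of_nonneg_left hv hl])
      rcases le_total (η / 2) |a.re| with H | H
      · rcases le_abs.1 H with H | H
        · linarith [k1 _ H]
        · have := k1 _ H
          rw [mul_neg] at this
          linarith
      · rcases le_abs.1 (show η / 2 ≤ |a.im| by linarith [not_le.1 h]) with H | H
        · linarith [k1 _ H]
        · have := k1 _ H
          rw [mul_neg] at this
          linarith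
    have k2 := mul_le_mul_of_nonneg_left k (show 0 ≤ (Cs + 1) * Real.exp (-(l * η / 2)) by
      positivity)
    rw [mul_assoc, ← Real.exp_add, neg_add_cancel, Real.exp_zero, mul_one] at k2
    have : lam l η Cs a ≤ -Cs := by
      unfold lam
      linarith
    linarith [mul_le_mul_of_nonneg_right this hu]

lemma end1 {ε N X f A Cs : ℝ} (hε : 0 < ε) (hA : 0 ≤ A) (hN : |N - 1| ≤ A * ε)
    (h1 : (20 * A + 2 * Cs + 2) * ε ≤ 1) (hC : 0 ≤ Cs) (hX : X ≤ -((20 * A + 2 * Cs + 2) * ε))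
    (hf : 1 - 2 * Cs * ε ≤ f) : (1 + ε / 2) * ((N ^ 10)⁻¹ * (1 + X)) < f := by
  have a0 : 0 ≤ A * ε := by positivity
  have a1 : 20 * (A * ε) ≤ 1 := by nlinarith [mul_nonneg hC hε.le]
  rw [abs_le] at hN
  have N0 : 0 < N := by linarith
  have b1 := one_add_mul_le_pow (show -2 ≤ N - 1 by linarith) 10
  rw [add_sub_cancel] at b1
  push_cast at b1
  have b2 : (N ^ 10)⁻¹ ≤ 1 + 20 * (A * ε) := by
    rw [inv_le_iff_one_le_mul₀ (by positivity)]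
    nlinarith [mul_le_mul_of_nonneg_left (show 1 - 10 * (A * ε) ≤ N ^ 10 by linarith)
      (show 0 ≤ 1 + 20 * (A * ε) by linarith)]
  have b3 : (N ^ 10)⁻¹ * (1 + X) ≤ (1 + 20 * (A * ε)) * (1 - (20 * A + 2 * Cs + 2) * ε) :=
    (mul_le_mul_of_nonneg_left (by linarith) (by positivity)).trans
      (mul_le_mul_of_nonneg_right b2 (by linarith))
  have b4 : (1 + ε / 2) * (1 + 20 * (A * ε)) ≤ 1 + 20 * (A * ε) + ε := by nlinarith
  have b5 := mul_le_mul_of_nonneg_left b3 (show 0 ≤ 1 + ε / 2 by linarith)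
  have b6 := mul_le_mul_of_nonneg_right b4 (sub_nonneg.2 h1)
  have b7 : 0 ≤ (20 * (A * ε) + ε) * ((20 * A + 2 * Cs + 2) * ε) := by positivity
  nlinarith

lemma end2 {ε N α β f M : ℝ} (hε : 0 < ε) (hε1 : ε ≤ 1) (hN0 : 0 < N) (hN : 10 * (N - 1) ≤ -α)
    (hα : |α| ≤ M * ε) (hβ : |β| ≤ M * ε) (hM : M * ε ≤ 1 / 2)
    (hf : f < 1 + α + β - 2 * ε - (M * ε) ^ 2) : f < (1 - ε / 2) * ((N ^ 10)⁻¹ * (1 + β)) := by
  have b0 : 1 - N ≤ N⁻¹ - 1 := by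
    rw [← sub_nonneg, show N⁻¹ - 1 - (1 - N) = (N - 1) ^ 2 / N by field_simp; ring]
    positivity
  have b1 := one_add_mul_le_pow (show -2 ≤ N⁻¹ - 1 by linarith [inv_pos.2 hN0]) 10
  rw [add_sub_cancel, inv_pow] at b1
  push_cast at b1
  have b2 : |α * β| ≤ (M * ε) ^ 2 := by
    rw [abs_mul, sq]
    exact mul_le_mul hα hβ (abs_nonneg _) ((abs_nonneg _).trans hα)
  rw [abs_le] at hα hβ b2
  have b3 : (1 + α) * (1 + β) ≤ (N ^ 10)⁻¹ * (1 + β) :=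
    mul_le_mul_of_nonneg_right (by linarith) (by linarith)
  have b4 := mul_le_mul_of_nonneg_left b3 (show 0 ≤ 1 - ε / 2 by linarith)
  have b5 : (1 + α) * (1 + β) ≤ 2 * 2 :=
    mul_le_mul (by linarith) (by linarith) (by linarith) (by norm_num)
  nlinarith [mul_le_mul_of_nonneg_left b5 hε.le]

lemma key (hGR : SGR) (hHB : SHB) {r m n : ℕ} {l η Cs C K A P L c S : ℝ}
    {om : Fin m → Fin r → ℂ} {F : ℂ → EV (Fin r)} {j : Fin m} {f : ℂ × V (Fin r) → ℝ}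
    (hl : 0 ≤ l) (hCs : 0 ≤ Cs) (hC : 0 ≤ C) (hA : 0 ≤ A) (hB : RepB r m c S om)
    (hp : ‖Pp c S (om j)‖ ≤ P) (hm : ‖Pm c S (om j)‖ ≤ P)
    (hψ : ∀ i p, |psi l η Cs c S (om i) p| ≤ A)
    (hL : ∀ p p', 1 / 4 ≤ nsq p → nsq p' = 1 →
      |psi l η Cs c S (om j) p - psi l η Cs c S (om j) p'| ≤ A * ‖p - p'‖)
    (hF : ∀ t, ‖F t - 1‖ ≤ C * (n : ℝ)⁻¹) (hf : CellB c S (om j) η Cs f) (hn : 1 ≤ n)
    (h1 : L ^ 2 * (n : ℝ)⁻¹ ≤ 1) (h2 : 2 * L * (n : ℝ)⁻¹ ≤ 1) (h3 : 3 * P * L * (n : ℝ)⁻¹ ≤ 1)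
    (h4 : 2 * (4 * (4 * r + 1) * L + c1 r P C) * (n : ℝ)⁻¹ ≤ 1)
    {x : V (Fin r)} (hx : x ∈ cone (Fin r)) {s : ℂ} (s1 : Real.exp (-L) ≤ ‖s ^ n‖)
    (s2 : ‖s ^ n‖ ≤ 1 / 4) : ∃ u N σ a b e d g : ℝ, 0 < u ∧ 0 < N ∧
      u ^ 20 * phh n l η Cs K c S om (tp j + s ^ n, (F (tp j + s ^ n) (rot c S (om j) s x)).2.2) =
        (N ^ 10)⁻¹ * (1 + (a * Real.log ‖s ^ n‖ + e - K) * (n : ℝ)⁻¹) ∧ u ^ 20 * f (s, x) = g ∧
      d ≤ 0 ∧ Real.log ‖s ^ n‖ * (n : ℝ)⁻¹ ≤ d ∧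
      d ≤ Real.log ‖s ^ n‖ * (n : ℝ)⁻¹ + (Real.log ‖s ^ n‖ * (n : ℝ)⁻¹) ^ 2 ∧
      |N - 1 + d * σ / 10| ≤ c1 r P C * (n : ℝ)⁻¹ ∧ |σ| ≤ 40 * (4 * r + 1) ∧ |a| ≤ A ∧ |b| ≤ A ∧
      |a - b| ≤ A * (3 * P * |d| + 2 * C * (n : ℝ)⁻¹) ∧ |e| ≤ m * (A * (m + 1)) + (m + 1) ^ 2 ∧
      1 + Cs * d ≤ g ∧ g ≤ 1 + (b + σ + 1 / 64) * d := by
  have hP : 0 ≤ P := (norm_nonneg _).trans hp
  have hw := hB.ax j
  have n0 : (0 : ℝ) < n := by exact_mod_cast hn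
  have n1 : (n : ℝ)⁻¹ ≤ 1 := inv_le_one_of_one_le₀ (by exact_mod_cast hn)
  obtain ⟨ε, hε⟩ : ∃ ε : ℝ, ε = (n : ℝ)⁻¹ := ⟨_, rfl⟩
  have ε0 : 0 < ε := hε ▸ inv_pos.2 n0
  have R0 : 0 < ‖s ^ n‖ := (Real.exp_pos _).trans_le s1
  have sn : s ≠ 0 := fun h => by simp [h, zero_pow (show n ≠ 0 by omega)] at R0
  obtain ⟨ρ, hρ⟩ : ∃ ρ : ℝ, ρ = ‖s‖ := ⟨_, rfl⟩
  have ρ0 : 0 < ρ := hρ ▸ norm_pos_iff.2 sn
  have ρc : (ρ : ℂ) ≠ 0 := by exact_mod_cast ρ0.ne'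
  have l1 : Real.log ‖s ^ n‖ * ε = Real.log ρ := by
    rw [norm_pow, Real.log_pow, hε, hρ]
    field_simp
  have l2 : -L ≤ Real.log ‖s ^ n‖ := (Real.le_log_iff_exp_le R0).2 s1
  have l3 : Real.log ‖s ^ n‖ < 0 := Real.log_neg R0 (by linarith)
  have l4 : -(L * ε) ≤ Real.log ρ := by nlinarith
  have l5 : Real.log ρ < 0 := l1 ▸ mul_neg_of_neg_of_pos l3 ε0
  have ρ1 : ρ < 1 := (Real.log_neg_iff ρ0).1 l5
  have d1 : Real.log ρ ≤ ρ - 1 := Real.log_le_sub_one_of_pos ρ0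
  rw [← hε] at h1 h2 h3 h4 hF n1 ⊢
  have d2 : ρ - 1 ≤ Real.log ρ + Real.log ρ ^ 2 := by
    have := Real.abs_exp_sub_one_sub_id_le (x := Real.log ρ) (abs_le.2 ⟨by linarith, by linarith⟩)
    rw [Real.exp_log ρ0] at this
    linarith [(abs_le.1 this).2]
  have d3 : |ρ - 1| ≤ L * ε := abs_le.2 ⟨by linarith, by linarith⟩
  have d4 : (ρ - 1) ^ 2 ≤ ε := by
    have := pow_le_pow_left₀ (abs_nonneg _) d3 2
    rw [sq_abs] at this
    nlinarith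
  obtain ⟨e, he⟩ : ∃ e : ℂ, e = s / ρ := ⟨_, rfl⟩
  have e1 : ‖e‖ = 1 := by
    rw [he, norm_div, norm_real, Real.norm_eq_abs, abs_of_pos ρ0, ← hρ, div_self ρ0.ne']
  have e0 : e ≠ 0 := fun h => by simp [h] at e1
  have e2 : s = ρ * e := by rw [he]; field_simp
  have hO := ((hGR.rt _ c S _ hw).2 e e0).2.1 e1
  have y0 := hO.fut x hx
  obtain ⟨u, hu⟩ : ∃ u : ℝ, u = (rot c S (om j) e x).1.re := ⟨_, rfl⟩
  have u0 : 0 < u := hu ▸ y0.2.2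
  have uc : (u : ℂ) ≠ 0 := by exact_mod_cast u0.ne'
  obtain ⟨x₁, hx₁⟩ : ∃ x₁ : V (Fin r), x₁ = ((u⁻¹ : ℝ) : ℂ) • x := ⟨_, rfl⟩
  have x1 : x₁ ∈ cone (Fin r) := hx₁ ▸ (hGR.cn _ x hx).2.2.2.1 _ (inv_pos.2 u0)
  have x2 : x = (u : ℂ) • x₁ := by rw [hx₁, smul_smul, ofReal_inv, mul_inv_cancel₀ uc, one_smul]
  have y1 : (rot c S (om j) e x₁).1 = 1 := by
    rw [hx₁, map_smul, Prod.smul_fst, (hGR.cn _ _ y0).2.2.1, ← hu, smul_eq_mul, ofReal_inv,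
      inv_mul_cancel₀ uc]
  have y2 : rot c S (om j) s x₁ = rot c S (om j) ρ (rot c S (om j) e x₁) := by
    rw [e2, ((hGR.rt _ c S _ hw).2 ρ ρc).2.2.1 e e0]
    rfl
  obtain ⟨v1, v2, v3⟩ := vec hGR hw hp hm (hO.fut x₁ x1) y1 (hF (tp j + s ^ n)) hC ε0.le n1
    (by linarith) d4 (by nlinarith [mul_le_mul_of_nonneg_left d3 hP])
  obtain ⟨b1, b2, b3⟩ := hf.bd ρ e ρ0.le ρ1 e1 x₁ x1 y1
  rw [← y2] at v2 v3
  rw [← e2] at b1 b2 b3
  obtain ⟨ξ, hξ⟩ : ∃ ξ, ξ = (rot c S (om j) e x₁).2.2 := ⟨_, rfl⟩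
  obtain ⟨p, hp'⟩ : ∃ p, p = (F (tp j + s ^ n) (rot c S (om j) s x₁)).2.2 := ⟨_, rfl⟩
  rw [← hξ] at v1 v2 v3 b3
  rw [← hp'] at v2 v3
  have a1 : ‖ip ξ (om j)‖ ^ 2 ≤ 1 := by
    simpa [v1, hw.unit] using (hGR.nrm _ ξ (om j)).2.2.2.1
  have a2 : |(ip ξ (om j)).re| ≤ 1 :=
    (abs_re_le_norm _).trans (abs_le_of_sq_le_sq' (by simpa using a1) zero_le_one).2
  have hS : S ≤ c := (abs_le_of_sq_le_sq' (by linarith [hw.hyp]) hw.hc.le).2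
  have a3 : |S * (ip ξ (om j)).re - c * ‖ip ξ (om j)‖ ^ 2| ≤ 2 * (4 * r + 1) := by
    have k1 := mul_le_mul_of_nonneg_left a1 hw.hc.le
    have k2 := mul_nonneg hw.hc.le (sq_nonneg ‖ip ξ (om j)‖)
    have k3 := mul_le_mul_of_nonneg_left (abs_le.1 a2).1 hw.hS
    have k4 := mul_le_mul_of_nonneg_left (abs_le.1 a2).2 hw.hS
    exact abs_le.2 ⟨by linarith [hB.hc], by linarith [hB.hc]⟩
  have a4 : 1 / 4 ≤ nsq p := by
    have k1 := mul_le_mul d3 a3 (abs_nonneg _) ((abs_nonneg _).trans d3)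
    rw [← abs_mul] at k1
    nlinarith [(abs_le.1 k1).1, (abs_le.1 v3).1]
  have p0 : p ≠ 0 := fun h => by
    rw [h] at a4
    norm_num [nsq] at a4
  have t0 : ∀ i : Fin m, tp j + s ^ n ≠ tp i := fun i h => by
    by_cases hi : i = j
    · rw [hi, add_eq_left] at h
      rw [h, norm_zero] at R0
      exact R0.false
    · have k := (tp_dist hi).1
      rw [← h, sub_add_cancel_left, norm_neg] at k
      linarith
  refine ⟨u, nsq p, -20 * (S * (ip ξ (om j)).re - c * ‖ip ξ (om j)‖ ^ 2),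
    psi l η Cs c S (om j) p, psi l η Cs c S (om j) ξ, _, ρ - 1, f (s, x₁), u0, by linarith, ?_, ?_,
    by linarith, l1 ▸ d1, l1 ▸ d2, ?_, ?_, hψ j p, hψ j ξ,
    (hL p ξ a4 v1).trans (mul_le_mul_of_nonneg_left v2 hA),
    rest (fun i => psi l η Cs c S (om i) p) (fun i => hψ i p) j s2, by linarith, ?_⟩
  · have k := (((hHB r m l η Cs K).1 n c S om hB _ p t0 p0).2 u u0)
    rw [x2, map_smul, map_smul, Prod.smul_snd, Prod.smul_snd, ← hp', k, phh, div_eq_mul_inv, ← hε]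
    ring
  · rw [x2]
    exact (hf.sm s (hρ ▸ ρ1) x₁ x1).2.2.2 u u0
  · convert v3 using 2
    ring
  · rw [abs_mul, abs_neg, abs_of_pos (show (0 : ℝ) < 20 by norm_num)]
    linarith
  · have k := lam_bd (l := l) hl hCs (sub_nonneg.2 ρ1.le) b2 b3
    refine k.trans_eq ?_
    rw [psi, v1, Real.sqrt_one, ofReal_one, div_one]
    ring

lemma ev (A : ℝ) : ∀ᶠ n : ℕ in atTop, A * (n : ℝ)⁻¹ < 1 := by
  have : Tendsto (fun n : ℕ => A * (n : ℝ)⁻¹) atTop (𝓝 (A * 0)) :=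
    tendsto_inv_atTop_nhds_zero_nat.const_mul A
  exact this.eventually_lt_const (by simp)

theorem snc (hGR : SGR) (hPS : SPS) (hHB : SHB) : SNC := by
  intro r m l η Cs C₀ _ hl hCs
  obtain ⟨A, hA, hψ⟩ := hPS r l η Cs
  obtain ⟨P, hP, hPb⟩ := hGR.bd (Fin r) (4 * r + 1)
  obtain ⟨C, hC, hCC⟩ : ∃ C, 0 ≤ C ∧ C₀ ≤ C := ⟨|C₀|, abs_nonneg _, le_abs_self _⟩
  have c10 := c1_nonneg r hP hC
  obtain ⟨C₁, h₁⟩ : ∃ C₁, C₁ = c1 r P C := ⟨_, rfl⟩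
  obtain ⟨C₂, h₂⟩ : ∃ C₂ : ℝ, C₂ = m * (A * (m + 1)) + (m + 1) ^ 2 := ⟨_, rfl⟩
  obtain ⟨c₀, h₀⟩ : ∃ c₀ : ℝ, c₀ = 4 * r + 1 := ⟨_, rfl⟩
  have c20 : 0 ≤ C₂ := by rw [h₂]; positivity
  have c00 : 0 ≤ c₀ := by rw [h₀]; positivity
  rw [← h₁] at c10
  refine ⟨20 * (8 * c₀ + C₁) + 2 * Cs + 2 + C₂ + 2 * A, fun K hK => ?_⟩
  obtain ⟨L, hL⟩ : ∃ L, L = 64 * (10 * C₁ + C₂ + K + 3) := ⟨_, rfl⟩
  have K0 : 0 ≤ K := le_trans (by positivity) hK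
  have L0 : 192 ≤ L := by linarith
  have e5 : Real.exp (-L) < 1 / 5 := by
    rw [Real.exp_neg, inv_lt_comm₀ (Real.exp_pos _) (by norm_num)]
    linarith [Real.add_one_le_exp L]
  obtain ⟨M, hM⟩ : ∃ M, M = 40 * c₀ * L + 10 * C₁ + (A * L + C₂ + K) := ⟨_, rfl⟩
  refine ⟨Real.exp (-L), Real.exp_pos _, e5, ?_⟩
  filter_upwards [eventually_ge_atTop 1, ev (L ^ 2), ev (2 * L), ev (3 * P * L),
    ev (2 * (4 * (4 * r + 1) * L + c1 r P C)), ev (20 * (8 * c₀ + C₁) + 2 * Cs + 2), ev (2 * M),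
    ev (M ^ 2 + L ^ 2 * (A + 1) + A * (3 * P * L + 2 * C) * L)]
    with n hn h1 h2 h3 h4 h5 h6 h7 c S om F hB hF j f hf x hx s
  have n0 : (0 : ℝ) < n := by exact_mod_cast hn
  have n1 : (n : ℝ)⁻¹ ≤ 1 := inv_le_one_of_one_le₀ (by exact_mod_cast hn)
  have ε0 : 0 < (n : ℝ)⁻¹ := inv_pos.2 n0
  have hk := fun s1 s2 => key (K := K) (s := s) hGR hHB hl hCs hC hA hB
    (hPb c S _ (hB.ax j) hB.hc).1 (hPb c S _ (hB.ax j) hB.hc).2.1
    (fun i => (hψ c S _ (hB.ax i) hB.hc).1) (hψ c S _ (hB.ax j) hB.hc).2.2.1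
    (fun t => (hF t).trans (mul_le_mul_of_nonneg_right hCC ε0.le)) hf hn h1.le h2.le h3.le h4.le
    hx s1 s2
  have e2 : (1 : ℝ) / (2 * n) = (n : ℝ)⁻¹ / 2 := by field_simp
  rw [e2, ← h₁, ← h₂, ← h₀] at *
  generalize (n : ℝ)⁻¹ = ε at *
  refine ⟨fun s1 s2 => ?_, fun s1 => ?_⟩
  · obtain ⟨u, N, σ, a, b, e, d, g, u0, N0, k1, k2, d0, d1, -, k3, k4, k5, -, -, k6, k7, -⟩ :=
      hk (e5.le.trans s1) s2
    have l1 : -2 ≤ Real.log ‖s ^ n‖ := by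
      rw [Real.le_log_iff_exp_le (by linarith), Real.exp_neg]
      refine le_trans ?_ s1
      rw [inv_le_comm₀ (Real.exp_pos _) (by norm_num)]
      linarith [Real.quadratic_le_exp_of_nonneg (x := 2) zero_le_two]
    have l2 : Real.log ‖s ^ n‖ ≤ 0 := Real.log_nonpos (norm_nonneg _) (by linarith)
    have d2 : |d| ≤ 2 * ε := abs_le.2 ⟨by nlinarith, by linarith⟩
    have d3 := mul_le_mul d2 k4 (abs_nonneg _) (by positivity)
    have d4 := mul_le_mul k5 (abs_le.2 ⟨l1, l2.trans zero_le_two⟩) (abs_nonneg _) hA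
    rw [← abs_mul, abs_le] at d3 d4
    rw [abs_le] at k3 k6
    refine lt_of_mul_lt_mul_left ?_ (pow_pos u0 20).le
    rw [mul_left_comm, k1, k2]
    refine end1 (A := 8 * c₀ + C₁) ε0 (by positivity) (abs_le.2 ⟨by linarith, by linarith⟩) h5.le
      hCs ?_ ?_
    · rw [← neg_mul]
      exact mul_le_mul_of_nonneg_right (by linarith) ε0.le
    · nlinarith [mul_le_mul_of_nonneg_left (abs_le.1 d2).1 hCs]
  · obtain ⟨u, N, σ, a, b, e, d, g, u0, N0, k1, k2, d0, d1, d2, k3, k4, k5, k6, k7, k8, -, k9⟩ :=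
      hk s1.ge (by linarith)
    rw [s1, Real.log_exp] at k1 d1 d2
    have Lε : 0 ≤ L * ε := by positivity
    have d3 : |d| ≤ L * ε := abs_le.2 ⟨by linarith, by linarith⟩
    have d4 := mul_le_mul d3 k4 (abs_nonneg _) Lε
    have d5 := mul_le_mul_of_nonneg_right k5 Lε
    have d6 : |a - b| * (L * ε) ≤ A * (3 * P * (L * ε) + 2 * C * ε) * (L * ε) :=
      mul_le_mul_of_nonneg_right (k7.trans (mul_le_mul_of_nonneg_left
        (by linarith [mul_le_mul_of_nonneg_left d3 hP]) hA)) Lε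
    have d7 : (b + 1 / 64) * (d + L * ε) ≤ (A + 1) * (L * ε) ^ 2 :=
      mul_le_mul (by linarith [(abs_le.1 k6).2]) (by linarith) (by linarith) (by linarith)
    have d8 := mul_le_mul_of_nonneg_right k8 ε0.le
    rw [← abs_of_nonneg Lε, ← abs_mul, abs_of_nonneg Lε, abs_le] at d5
    rw [← abs_of_nonneg Lε, ← abs_mul, abs_of_nonneg Lε, abs_le] at d6
    rw [← abs_of_pos ε0, ← abs_mul, abs_of_pos ε0, abs_le] at d8
    rw [← abs_mul, abs_le] at d4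
    rw [abs_le] at k3
    have p1 : 0 ≤ C₁ * ε := by positivity
    have p2 : 0 ≤ K * ε := by positivity
    have p3 : 0 ≤ C₂ * ε := by positivity
    have p4 : 0 ≤ A * (L * ε) := by positivity
    have p5 : 0 ≤ c₀ * (L * ε) := by positivity
    have p6 := mul_lt_mul_of_pos_right h7 ε0
    have p7 : L * ε = 64 * (10 * C₁ + C₂ + K + 3) * ε := by rw [hL]
    have p8 : M * ε = (40 * c₀ * L + 10 * C₁ + (A * L + C₂ + K)) * ε := by rw [hM]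
    refine lt_of_mul_lt_mul_left ?_ (pow_pos u0 20).le
    rw [mul_left_comm, k1, k2]
    refine end2 (α := d * σ - 10 * (C₁ * ε)) (M := M) ε0 n1 N0 (by linarith)
      (abs_le.2 ⟨by linarith, by linarith⟩) (abs_le.2 ⟨by linarith, by linarith⟩) (by linarith) ?_
    linarith

end Pool.Agent.MP_fcd29e_an.H65
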